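import Mathlib
import Pool.Agent.H67.PC.Poly
import Pool.Agent.H67.PC.Counter

/-! Polynomial expansion is equivalent to polynomially bounded strong colouring numbers, and it does
not imply polynomially bounded weak colouring numbers. -/

namespace Pool.Agent.Results.MP_366dac_co.Equivalence

open Pool.Agent.H67.PC

/-- For every monotone class, polynomial expansion holds if and only if the strong colouring
numbers are polynomially bounded; and some monotone class satisfies both conditions while its
weak colouring numbers are not polynomially bounded. -/
theorem result :
    (∀ C : GraphClass, Monotone C → (PolyExpansion C ↔ PolyCol C)) ∧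
      ∃ C : GraphClass, Monotone C ∧ PolyExpansion C ∧ PolyCol C ∧ ¬ PolyWcol C :=
  ⟨fun C _ => ⟨polyCol_of_expansion C, expansion_of_polyCol C⟩,
    TowerClass, towerClass_monotone, expansion_of_polyCol _ towerClass_polyCol,
    towerClass_polyCol, towerClass_not_polyWcol⟩

end Pool.Agent.Results.MP_366dac_co.Equivalence
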